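import Pool.Agent.K7.H2.UT.Stm

/-!
# Project UT, job INV (helper21)
-/

set_option autoImplicit false

open OnePoint

namespace Pool.Agent.K7.H21.UTINV

open Pool.Agent.K7.H2.UT

variable {F : Type} [Field F] [DecidableEq F]

/-- the property -/
def Good (g : Equiv.Perm (OnePoint F)) : Prop :=
  ∃ (σ : F ≃+* F) (δ : F) (c : OnePoint F → F), δ ≠ 0 ∧ (∀ a, c a ≠ 0) ∧
    ∀ a b, D (g a) (g b) = δ * c a * c b * σ (D a b)

/-- homogeneous coordinates -/
def r1 : OnePoint F → F
  | ∞ => 1
  | OnePoint.some x => x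

/-- homogeneous coordinates -/
def r2 : OnePoint F → F
  | ∞ => 0
  | OnePoint.some _ => 1

theorem D_eq (a b : OnePoint F) : D a b = r1 a * r2 b - r2 a * r1 b := by
  induction a using OnePoint.rec with
  | infty =>
    induction b using OnePoint.rec with
    | infty => simp [D, r1, r2]
    | coe y => simp [D, r1, r2]
  | coe x =>
    induction b using OnePoint.rec with
    | infty => simp [D, r1, r2]
    | coe y => simp [D, r1, r2]

theorem rep_smul (M : GL (Fin 2) F) (a : OnePoint F) : ∃ c : F, c ≠ 0 ∧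
    M 0 0 * r1 a + M 0 1 * r2 a = c * r1 (M • a) ∧
    M 1 0 * r1 a + M 1 1 * r2 a = c * r2 (M • a) := by
  have hdet : M 0 0 * M 1 1 - M 0 1 * M 1 0 ≠ 0 := by
    have h1 := M.det_ne_zero
    rw [Matrix.det_fin_two] at h1
    exact h1
  induction a using OnePoint.rec with
  | infty =>
    rw [OnePoint.smul_infty_eq_ite]
    split_ifs with h
    · refine ⟨M 0 0, ?_, ?_, ?_⟩
      · intro h0
        apply hdet
        rw [h0, h]
        ring
      · simp [r1, r2]
      · simp [r1, r2, h]
    · refine ⟨M 1 0, h, ?_, ?_⟩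
      · simp only [r1, r2]
        field_simp
        ring
      · simp [r1, r2]
  | coe x =>
    rw [OnePoint.smul_some_eq_ite]
    split_ifs with h
    · refine ⟨M 0 0 * x + M 0 1, ?_, ?_, ?_⟩
      · intro h0
        apply hdet
        have e1 : M 0 1 = -(M 0 0 * x) := by linear_combination h0
        have e2 : M 1 1 = -(M 1 0 * x) := by linear_combination h
        rw [e1, e2]
        ring
      · simp [r1, r2]
      · simp only [r1, r2]
        linear_combination h
    · refine ⟨M 1 0 * x + M 1 1, h, ?_, ?_⟩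
      · simp only [r1, r2]
        rw [mul_one, mul_div_cancel₀ _ h]
      · simp [r1, r2]

theorem good_gl (g : Equiv.Perm (OnePoint F)) (M : GL (Fin 2) F) (h : ∀ x, g x = M • x) :
    Good g := by
  choose c hc h1 h2 using rep_smul M
  have hdet : M 0 0 * M 1 1 - M 0 1 * M 1 0 ≠ 0 := by
    have h1 := M.det_ne_zero
    rw [Matrix.det_fin_two] at h1
    exact h1
  refine ⟨RingEquiv.refl F, M 0 0 * M 1 1 - M 0 1 * M 1 0, fun a => (c a)⁻¹, hdet,
    fun a => inv_ne_zero (hc a), fun a b => ?_⟩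
  rw [h a, h b, D_eq, D_eq]
  have ha := hc a
  have hb := hc b
  have e1 := h1 a
  have e2 := h2 a
  have e3 := h1 b
  have e4 := h2 b
  simp only [RingEquiv.refl_apply]
  field_simp
  have e5 : c a * c b * (r1 (M • a) * r2 (M • b) - r2 (M • a) * r1 (M • b)) =
      (c a * r1 (M • a)) * (c b * r2 (M • b)) - (c a * r2 (M • a)) * (c b * r1 (M • b)) := by
    ring
  have e6 : c a * c b * (r1 (M • a) * r2 (M • b) - r2 (M • a) * r1 (M • b)) =
      (M 0 0 * M 1 1 - M 0 1 * M 1 0) * (r1 a * r2 b - r2 a * r1 b) := by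
    rw [e5, ← e1, ← e2, ← e3, ← e4]
    ring
  linear_combination e6

theorem good_map (g : Equiv.Perm (OnePoint F)) (σ : F ≃+* F)
    (h : ∀ x, g x = OnePoint.map σ x) : Good g := by
  refine ⟨σ, 1, fun _ => 1, one_ne_zero, fun _ => one_ne_zero, fun a b => ?_⟩
  rw [h a, h b, D_eq, D_eq]
  have k1 : ∀ a : OnePoint F, r1 (OnePoint.map σ a) = σ (r1 a) := by
    intro a
    induction a using OnePoint.rec with
    | infty => simp [r1]
    | coe x => simp [r1]
  have k2 : ∀ a : OnePoint F, r2 (OnePoint.map σ a) = σ (r2 a) := by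
    intro a
    induction a using OnePoint.rec with
    | infty => simp [r2]
    | coe x => simp [r2]
  rw [k1, k1, k2, k2, map_sub, map_mul, map_mul]
  ring

theorem t : StINV := by
  intro F _ _ g hg
  change Good g
  unfold PGammaL at hg
  induction hg using Subgroup.closure_induction with
  | mem x hx =>
    rcases hx with ⟨M, hM⟩ | ⟨σ, hσ⟩
    · exact good_gl x M hM
    · exact good_map x σ hσ
  | one => exact ⟨RingEquiv.refl F, 1, fun _ => 1, one_ne_zero, fun _ => one_ne_zero,
      fun a b => by simp⟩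
  | mul x y _ _ hx hy =>
    obtain ⟨σ, δ, c, h1, h2, h3⟩ := hx
    obtain ⟨σ', δ', c', h1', h2', h3'⟩ := hy
    refine ⟨σ'.trans σ, δ * σ δ', fun a => c (y a) * σ (c' a), ?_, ?_, ?_⟩
    · exact mul_ne_zero h1 ((map_ne_zero σ).2 h1')
    · exact fun a => mul_ne_zero (h2 _) ((map_ne_zero σ).2 (h2' a))
    · intro a b
      rw [Equiv.Perm.mul_apply, Equiv.Perm.mul_apply, h3, h3', map_mul, map_mul, map_mul]
      simp only [RingEquiv.coe_trans, Function.comp_apply]
      ring
  | inv x _ hx =>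
    obtain ⟨σ, δ, c, h1, h2, h3⟩ := hx
    refine ⟨σ.symm, σ.symm δ⁻¹, fun a => σ.symm (c (x⁻¹ a))⁻¹, ?_, ?_, ?_⟩
    · exact (map_ne_zero σ.symm).2 (inv_ne_zero h1)
    · exact fun a => (map_ne_zero σ.symm).2 (inv_ne_zero (h2 _))
    · intro a b
      have h4 := h3 (x⁻¹ a) (x⁻¹ b)
      have e1 : ∀ z, x (x⁻¹ z) = z := fun z => x.apply_symm_apply z
      rw [e1, e1] at h4
      have ha := h2 (x⁻¹ a)
      have hb := h2 (x⁻¹ b)
      apply σ.injective
      rw [map_mul, map_mul, map_mul]
      simp only [RingEquiv.apply_symm_apply]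
      rw [h4]
      field_simp

end Pool.Agent.K7.H21.UTINV
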